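import Pool.Agent.H950.FK.St

/-!
# FK (helper950), T3: the number of clusters in a rectangle
-/

set_option autoImplicit false

namespace Pool.Agent.H738.FKncl

open H974 Pool.Agent.H950.FK

/-- two functions with the same fibres have images of the same size -/
theorem ncard_fib {α β γ : Type*} (s : Set α) (f : α → β) (g : α → γ)
    (h : ∀ a ∈ s, ∀ b ∈ s, f a = f b ↔ g a = g b) : (f '' s).ncard = (g '' s).ncard := by
  refine Set.ncard_congr (fun y hy => g hy.choose) ?_ ?_ ?_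
  · intro y hy
    exact ⟨_, hy.choose_spec.1, rfl⟩
  · intro y y' hy hy' e
    rw [← hy.choose_spec.2, ← hy'.choose_spec.2]
    exact (h _ hy.choose_spec.1 _ hy'.choose_spec.1).2 e
  · rintro _ ⟨a, ha, rfl⟩
    have hy : f a ∈ f '' s := ⟨a, ha, rfl⟩
    exact ⟨f a, hy, (h _ hy.choose_spec.1 _ ha).1 hy.choose_spec.2⟩

/-- a vertex without edges is isolated -/
theorem iso {A : Set Edg} {v : Vtx} (h : ∀ e ∈ A, src e ≠ v ∧ tgt e ≠ v) {u : Vtx}
    (hr : Reach A v u) : u = v := by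
  induction hr with
  | refl => rfl
  | tail _ hs ih =>
    rw [ih] at hs
    obtain ⟨e, he, h1 | h1⟩ := hs
    · exact absurd h1.1 (h e he).1
    · exact absurd h1.2 (h e he).2

theorem rowN {A : Set Edg} (x y : ℤ) (n : ℕ)
    (h : ∀ x', x ≤ x' → x' < x + n → ((x', y, true) : Edg) ∈ A) :
    Reach A (x, y) (x + n, y) := by
  induction n with
  | zero =>
    have e : (x + ((0 : ℕ) : ℤ), y) = (x, y) := by simp
    rw [e]
    exact Reach.refl A _
  | succ n ih =>
    have h1 := ih (fun x' h1 h2 => h x' h1 (by push_cast; linarith))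
    refine h1.trans (Adj.reach ⟨(x + n, y, true), h _ (by linarith [Int.natCast_nonneg n])
      (by push_cast; linarith), Or.inl ⟨rfl, ?_⟩⟩)
    rw [tgt_true]
    push_cast
    rw [add_assoc]

theorem colN {A : Set Edg} (x y : ℤ) (n : ℕ)
    (h : ∀ y', y ≤ y' → y' < y + n → ((x, y', false) : Edg) ∈ A) :
    Reach A (x, y) (x, y + n) := by
  induction n with
  | zero =>
    have e : (x, y + ((0 : ℕ) : ℤ)) = (x, y) := by simp
    rw [e]
    exact Reach.refl A _
  | succ n ih =>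
    have h1 := ih (fun x' h1 h2 => h x' h1 (by push_cast; linarith))
    refine h1.trans (Adj.reach ⟨(x, y + n, false), h _ (by linarith [Int.natCast_nonneg n])
      (by push_cast; linarith), Or.inl ⟨rfl, ?_⟩⟩)
    rw [tgt_false]
    push_cast
    rw [add_assoc]

theorem row {A : Set Edg} {x x' : ℤ} (y : ℤ) (hx : x ≤ x')
    (h : ∀ t, x ≤ t → t < x' → ((t, y, true) : Edg) ∈ A) : Reach A (x, y) (x', y) := by
  have e : x' = x + ((x' - x).toNat : ℤ) := by
    rw [Int.toNat_of_nonneg (by linarith)]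
    ring
  rw [e]
  exact rowN x y _ (fun t h1 h2 => h t h1 (by rw [← e] at h2; exact h2))

theorem col {A : Set Edg} {y y' : ℤ} (x : ℤ) (hx : y ≤ y')
    (h : ∀ t, y ≤ t → t < y' → ((x, t, false) : Edg) ∈ A) : Reach A (x, y) (x, y') := by
  have e : y' = y + ((y' - y).toNat : ℤ) := by
    rw [Int.toNat_of_nonneg (by linarith)]
    ring
  rw [e]
  exact colN x y _ (fun t h1 h2 => h t h1 (by rw [← e] at h2; exact h2))

section
variable (D : GD) {l r c d : ℤ}

theorem mW {v : Vtx} : v ∈ D.W ↔ v.1 ≤ D.w v.2 := Iff.rfl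
theorem mZ {v : Vtx} : v ∈ D.Z ↔ D.z v.2 ≤ v.1 := Iff.rfl

theorem WZ {v : Vtx} (h : v ∈ D.W) : v ∉ D.Z := by
  rw [mW] at h
  rw [mZ]
  have := D.lt v.2
  omega

theorem rE {a b c d : ℤ} {e : Edg} : e ∈ RE a b c d ↔ ((a ≤ e.1 ∧ e.1 ≤ b) ∧ c ≤ e.2.1 ∧ e.2.1 ≤ d) ∧
    (if e.2.2 then e.1 < b else e.2.1 < d) := by
  unfold RE
  simp only [Finset.mem_filter, Finset.mem_product, Finset.mem_Icc, Finset.mem_univ, and_true]

/-- the wired vertices of the rectangle are connected -/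
theorem wcon (hl : ∀ y, l ≤ D.w y) (hr : ∀ y, D.z y ≤ r) {x y : ℤ} (h1 : l ≤ x) (h2 : x ≤ D.w y)
    (h3 : c ≤ y) (h4 : y ≤ d) : Reach (D.We ∩ ↑(RE l r c d)) (l, c) (x, y) := by
  have hlt := D.lt y
  have hry := hr y
  refine (col (y' := y) l h3 ?_).trans (row y h1 ?_)
  · intro t h5 h6
    refine ⟨⟨?_, ?_⟩, ?_⟩
    · exact hl t
    · exact hl (t + 1)
    · rw [Finset.mem_coe, rE]
      have := hl y
      refine ⟨⟨⟨le_rfl, by omega⟩, h5, by show t ≤ d; omega⟩, ?_⟩
      show t < d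
      omega
  · intro t h5 h6
    refine ⟨⟨?_, ?_⟩, ?_⟩
    · show t ≤ D.w y
      omega
    · show t + 1 ≤ D.w y
      omega
    · rw [Finset.mem_coe, rE]
      refine ⟨⟨⟨h5, by show t ≤ r; omega⟩, h3, h4⟩, ?_⟩
      show t < r
      omega

/-- all wired vertices are connected -/
theorem wall (hl : ∀ y, l ≤ D.w y) {v : Vtx} (hv : v ∈ D.W) : Reach D.We (l, c) v := by
  obtain ⟨x, y⟩ := v
  have hv' : x ≤ D.w y := hv
  have h1 : Reach D.We (l, c) (l, y) := by
    rcases le_total c y with h | h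
    · exact col l h (fun t _ _ => ⟨hl t, hl (t + 1)⟩)
    · refine Reach.symm (col l h ?_)
      exact fun t _ _ => ⟨hl t, hl (t + 1)⟩
  refine h1.trans ?_
  rcases le_total l x with h | h
  · refine row y h ?_
    intro t h5 h6
    refine ⟨?_, ?_⟩
    · show t ≤ D.w y
      omega
    · show t + 1 ≤ D.w y
      omega
  · have := hl y
    refine Reach.symm (row y h ?_)
    intro t h5 h6
    refine ⟨?_, ?_⟩
    · show t ≤ D.w y
      omega
    · show t + 1 ≤ D.w y
      omega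

/-- the ends of the random edges are in the rectangle -/
theorem rnd_in (hl : ∀ y, l ≤ D.w y) (hr : ∀ y, D.z y ≤ r) (hc : c ≤ D.lo) (hd : D.hi ≤ d)
    {e : Edg} (he : e ∈ D.rnd) : src e ∈ Finset.Icc l r ×ˢ Finset.Icc c d ∧
      tgt e ∈ Finset.Icc l r ×ˢ Finset.Icc c d := by
  obtain ⟨x, y, o⟩ := e
  obtain ⟨h1, h2, h3⟩ := he
  have hrow : (src (x, y, o) ∉ D.W) ∨ (tgt (x, y, o) ∉ D.W) := by
    by_contra h
    push Not at h
    exact h3 h
  simp only [Finset.mem_product, Finset.mem_Icc]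
  rcases hrow with h | h
  · have h4 := D.row h1 h
    rw [mW] at h
    rw [mZ] at h1 h2
    have h5 := hl (src (x, y, o)).2
    have h6 := hr (src (x, y, o)).2
    have h7 := hr (tgt (x, y, o)).2
    cases o
    · simp only [src_mk, tgt_false] at *
      omega
    · simp only [src_mk, tgt_true] at *
      omega
  · have h4 := D.row h2 h
    rw [mW] at h
    rw [mZ] at h1 h2
    have h5 := hl (tgt (x, y, o)).2
    have h6 := hr (src (x, y, o)).2
    have h7 := hr (tgt (x, y, o)).2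
    cases o
    · simp only [src_mk, tgt_false] at *
      omega
    · simp only [src_mk, tgt_true] at *
      omega

/-- the connections in the rectangle -/
theorem key (hl : ∀ y, l ≤ D.w y) (hr : ∀ y, D.z y ≤ r) (hc : c ≤ D.lo) (hd : D.hi ≤ d)
    {F : Finset Edg} (hF : F ⊆ D.E) {u v : Vtx} (hu : u ∈ Finset.Icc l r ×ˢ Finset.Icc c d)
    (hv : v ∈ Finset.Icc l r ×ˢ Finset.Icc c d) :
    Reach (↑F ∪ (D.We ∩ ↑(RE l r c d))) u v ↔ Reach (D.cfg F) u v := by
  have hsub : (↑F ∪ (D.We ∩ ↑(RE l r c d)) : Set Edg) ⊆ D.cfg F :=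
    Set.union_subset_union_right _ Set.inter_subset_left
  have hw : ∀ a ∈ Finset.Icc l r ×ˢ Finset.Icc c d, a ∈ D.W →
      Reach (↑F ∪ (D.We ∩ ↑(RE l r c d))) (l, c) a := by
    intro a ha haW
    rw [Finset.mem_product, Finset.mem_Icc, Finset.mem_Icc] at ha
    exact (wcon D hl hr ha.1.1 haW ha.2.1 ha.2.2).mono Set.subset_union_right
  refine ⟨fun h => h.mono hsub, fun h => ?_⟩
  have hP : ∀ b, Reach (D.cfg F) u b →
      ((b ∈ Finset.Icc l r ×ˢ Finset.Icc c d ∧ Reach (↑F ∪ (D.We ∩ ↑(RE l r c d))) u b) ∨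
      (b ∈ D.W ∧ Reach (↑F ∪ (D.We ∩ ↑(RE l r c d))) u (l, c))) := by
    intro b hb
    induction hb with
    | refl => exact Or.inl ⟨hu, Reach.refl _ _⟩
    | @tail b b' _ hs ih =>
      obtain ⟨e, he, he'⟩ := hs
      rcases he with he | he
      · -- an edge of `F`
        have hin := rnd_in D hl hr hc hd (D.mem_E.1 (hF he))
        have hbb : b ∈ Finset.Icc l r ×ˢ Finset.Icc c d ∧
            b' ∈ Finset.Icc l r ×ˢ Finset.Icc c d := by
          rcases he' with ⟨h1, h2⟩ | ⟨h1, h2⟩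
          · rw [h1, h2] at hin
            exact hin
          · rw [h1, h2] at hin
            exact hin.symm
        have hadj : Reach (↑F ∪ (D.We ∩ ↑(RE l r c d))) b b' :=
          Adj.reach ⟨e, Or.inl he, he'⟩
        left
        refine ⟨hbb.2, ?_⟩
        rcases ih with ⟨_, h1⟩ | ⟨h1, h2⟩
        · exact h1.trans hadj
        · exact (h2.trans (hw b hbb.1 h1)).trans hadj
      · -- a wired edge
        have hbb : b ∈ D.W ∧ b' ∈ D.W := by
          rcases he' with ⟨h1, h2⟩ | ⟨h1, h2⟩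
          · rw [← h1, ← h2]
            exact he
          · rw [← h1, ← h2]
            exact And.symm he
        right
        refine ⟨hbb.2, ?_⟩
        rcases ih with ⟨h0, h1⟩ | ⟨h1, h2⟩
        · exact h1.trans (hw b h0 hbb.1).symm
        · exact h2
  rcases hP v h with ⟨_, h1⟩ | ⟨h1, h2⟩
  · exact h1
  · exact h2.trans (hw v hv h1)

theorem cl_eq {A : Set Edg} {u v : Vtx} : ({x | Reach A u x} = {x | Reach A v x}) ↔
    Reach A u v := by
  constructor
  · intro h
    have : v ∈ {x | Reach A v x} := Reach.refl _ _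
    rw [← h] at this
    exact this
  · intro h
    ext x
    exact ⟨fun h1 => h.symm.trans h1, fun h1 => h.trans h1⟩

end

/-- **T3.** -/
theorem t_ncl : Pool.Agent.H950.FK.S_ncl := by
  intro D l r c d hl hr hc hd
  let V0 : Finset Vtx := Finset.Icc l r ×ˢ Finset.Icc c d
  let I : Set Vtx := {v | v ∈ V0 ∧ v ∉ D.Z}
  let J : Set Vtx := {v | v ∈ V0 ∧ v ∈ D.Z}
  refine ⟨J.ncard, fun F hF => ?_⟩
  let A : Set Edg := ↑F ∪ (D.We ∩ ↑(RE l r c d))
  have hIf : I.Finite := V0.finite_toSet.subset fun v hv => hv.1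
  have hJf : J.Finite := V0.finite_toSet.subset fun v hv => hv.1
  have hlc : ((l, c) : Vtx) ∈ I := by
    have h1 := hl c
    have h2 := D.lt c
    have h3 := hr c
    have h4 := D.lohi
    refine ⟨?_, WZ D (hl c)⟩
    show ((l, c) : Vtx) ∈ Finset.Icc l r ×ˢ Finset.Icc c d
    rw [Finset.mem_product, Finset.mem_Icc, Finset.mem_Icc]
    exact ⟨⟨le_rfl, by show l ≤ r; omega⟩, le_rfl, by show c ≤ d; omega⟩
  -- the clusters of `cfg F`
  have e1 : {K : Set Vtx | ∃ v, v ∉ D.Z ∧ K = {u | Reach (D.cfg F) v u}} =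
      (fun v => {u | Reach (D.cfg F) v u}) '' I := by
    ext K
    constructor
    · rintro ⟨v, hv, rfl⟩
      by_cases hW : v ∈ D.W
      · refine ⟨(l, c), hlc, ?_⟩
        exact cl_eq.2 ((wall D hl hW).mono Set.subset_union_right)
      · refine ⟨v, ⟨?_, hv⟩, rfl⟩
        have h1 := D.row hv hW
        have h2 := hl v.2
        have h3 := hr v.2
        rw [mW] at hW
        rw [mZ] at hv
        show v ∈ Finset.Icc l r ×ˢ Finset.Icc c d
        rw [Finset.mem_product, Finset.mem_Icc, Finset.mem_Icc]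
        omega
    · rintro ⟨v, hv, rfl⟩
      exact ⟨v, hv.2, rfl⟩
  -- the clusters of `A`
  have e2 : {K : Set Vtx | ∃ v ∈ V0, K = {u | Reach A v u}} =
      ((fun v => {u | Reach A v u}) '' I) ∪ ((fun v => {u | Reach A v u}) '' J) := by
    ext K
    constructor
    · rintro ⟨v, hv, rfl⟩
      by_cases hZ : v ∈ D.Z
      · exact Or.inr ⟨v, ⟨hv, hZ⟩, rfl⟩
      · exact Or.inl ⟨v, ⟨hv, hZ⟩, rfl⟩
    · rintro (⟨v, hv, rfl⟩ | ⟨v, hv, rfl⟩)
      · exact ⟨v, hv.1, rfl⟩
      · exact ⟨v, hv.1, rfl⟩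
  have hiso : ∀ v ∈ D.Z, ∀ u, Reach A v u → u = v := by
    intro v hv u h
    refine iso (fun e he => ?_) h
    rcases he with he | he
    · have h1 := D.mem_E.1 (hF he)
      exact ⟨fun h2 => h1.1 (h2 ▸ hv), fun h2 => h1.2.1 (h2 ▸ hv)⟩
    · have h1 : src e ∈ D.W ∧ tgt e ∈ D.W := he.1
      exact ⟨fun h2 => WZ D h1.1 (h2 ▸ hv), fun h2 => WZ D h1.2 (h2 ▸ hv)⟩
  have hdis : Disjoint ((fun v => {u | Reach A v u}) '' I) ((fun v => {u | Reach A v u}) '' J) := by
    rw [Set.disjoint_left]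
    rintro _ ⟨v, hv, rfl⟩ ⟨v', hv', h⟩
    have h1 : Reach A v' v := cl_eq.1 h
    have h2 := hiso v' hv'.2 v h1
    rw [h2] at hv
    exact hv.2 hv'.2
  have e3 : ((fun v => {u | Reach A v u}) '' J).ncard = J.ncard := by
    refine Set.InjOn.ncard_image ?_
    intro v hv v' hv' h
    exact (hiso v hv.2 v' (cl_eq.1 h)).symm
  have e4 : ((fun v => {u | Reach A v u}) '' I).ncard =
      ((fun v => {u | Reach (D.cfg F) v u}) '' I).ncard := by
    refine ncard_fib I _ _ (fun a ha b hb => ?_)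
    show ({u | Reach A a u} = {u | Reach A b u}) ↔
      ({u | Reach (D.cfg F) a u} = {u | Reach (D.cfg F) b u})
    rw [cl_eq, cl_eq]
    exact key D hl hr hc hd hF ha.1 hb.1
  show {K : Set Vtx | ∃ v ∈ V0, K = {u | Reach A v u}}.ncard =
    {K : Set Vtx | ∃ v, v ∉ D.Z ∧ K = {u | Reach (D.cfg F) v u}}.ncard + J.ncard
  rw [e1, e2, Set.ncard_union_eq hdis (hIf.image _) (hJf.image _), e3, e4]

end Pool.Agent.H738.FKncl
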